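import Pool.Agent.Run7.h970.ND.Stm

/-! Piece BND of the project of helper970 (nine dragon tree): counting the components. -/

set_option autoImplicit false

namespace Pool.Agent.Run7.h799.ND

open SimpleGraph Pool.Agent.Run7.h970.ND

open scoped Classical in
theorem comp_sum {V : Type} [Fintype V] (R : SimpleGraph V) (r : V) (w : ℕ → V) (L : ℕ)
    (hw : ∀ a, a < L → w a ∉ St R r w a) (J : Finset ℕ) (hJ : ∀ i ∈ J, i ≤ L) (k : ℕ)
    (hk : ∀ i ∈ J, k ≤ cs R (rt r w i)) : k * J.card ≤ (St R r w L).ncard := by
  let F : ℕ → Finset V := fun i => Finset.univ.filter (fun x => R.Reachable (rt r w i) x)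
  have hF : ∀ i, (F i).card = cs R (rt r w i) := by
    intro i
    unfold cs
    rw [Set.ncard_eq_toFinset_card']
    congr 1
    ext x
    simp [F]
  have key : ∀ i j, i < j → j ≤ L → Disjoint (F i) (F j) := by
    intro i j hij hj
    obtain ⟨a, rfl⟩ : ∃ a, j = a + 1 := ⟨j - 1, by omega⟩
    rw [Finset.disjoint_left]
    intro v hv1 hv2
    simp only [F, Finset.mem_filter, Finset.mem_univ, true_and] at hv1 hv2
    refine hw a (by omega) ⟨i, by omega, ?_⟩
    exact hv1.trans hv2.symm
  have hdis : ∀ i ∈ J, ∀ j ∈ J, i ≠ j → Disjoint (F i) (F j) := by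
    intro i hi j hj hij
    rcases lt_or_gt_of_ne hij with h | h
    · exact key i j h (hJ j hj)
    · exact (key j i h (hJ i hi)).symm
  have h1 : (J.biUnion F).card = ∑ i ∈ J, (F i).card := Finset.card_biUnion hdis
  have h2 : (J.biUnion F).card ≤ (St R r w L).ncard := by
    rw [Set.ncard_eq_toFinset_card']
    refine Finset.card_le_card ?_
    intro x hx
    rw [Finset.mem_biUnion] at hx
    obtain ⟨i, hi, hx⟩ := hx
    simp only [F, Finset.mem_filter, Finset.mem_univ, true_and] at hx
    rw [Set.mem_toFinset]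
    exact ⟨i, hJ i hi, hx⟩
  have h3 : ∑ i ∈ J, k ≤ ∑ i ∈ J, (F i).card :=
    Finset.sum_le_sum (fun i hi => by rw [hF]; exact hk i hi)
  rw [Finset.sum_const, smul_eq_mul, mul_comm] at h3
  omega

open scoped Classical in
theorem t_BND : S_BND := by
  intro V _ ι _ R r u w β L s ν hsν h1 h2 h3
  have hw : ∀ a, a < L → w a ∉ St R r w a := fun a ha => (h1 a ha).2
  -- the big ones
  let Big := (Finset.range L).filter (fun a => s < cs R (w a))
  let Sm := (Finset.range L).filter (fun a => cs R (w a) ≤ s)
  have hBS : Big.card + Sm.card = L := by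
    have := Finset.card_filter_add_card_filter_not (s := Finset.range L)
      (fun a => s < cs R (w a))
    simp only [not_lt, Finset.card_range] at this
    exact this
  have hBig : (s + 1) * Big.card ≤ (St R r w L).ncard := by
    have := comp_sum R r w L hw (Big.image (fun a => a + 1)) (by
      intro i hi
      obtain ⟨a, ha, rfl⟩ := Finset.mem_image.1 hi
      have := Finset.mem_range.1 (Finset.mem_filter.1 ha).1
      omega) (s + 1) (by
      intro i hi
      obtain ⟨a, ha, rfl⟩ := Finset.mem_image.1 hi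
      exact (Finset.mem_filter.1 ha).2)
    rwa [Finset.card_image_of_injective _ (fun a b h => by simpa using h)] at this
  let I := (Finset.range (L + 1)).filter (fun i => ν - s ≤ cs R (rt r w i))
  have hI : (ν - s) * I.card ≤ (St R r w L).ncard :=
    comp_sum R r w L hw I (fun i hi => by
      have := Finset.mem_range.1 (Finset.mem_filter.1 hi).1
      omega) (ν - s) (fun i hi => (Finset.mem_filter.1 hi).2)
  -- choice of the component
  have hc : ∀ a, ∃ c, a < L → c ≤ a ∧ R.Reachable (rt r w c) (u a) := by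
    intro a
    by_cases ha : a < L
    · obtain ⟨c, hc, hr⟩ := (h1 a ha).1
      exact ⟨c, fun _ => ⟨hc, hr⟩⟩
    · exact ⟨0, fun h => absurd h ha⟩
  choose c hc using hc
  have hSm : Sm.card ≤ (s + 1) * (I.card * Fintype.card ι) := by
    have hmaps : ∀ a ∈ Sm, (c a, β a) ∈ I ×ˢ (Finset.univ : Finset ι) := by
      intro a ha
      obtain ⟨ha1, ha2⟩ := Finset.mem_filter.1 ha
      have haL := Finset.mem_range.1 ha1
      obtain ⟨g1, g2⟩ := hc a haL
      rw [Finset.mem_product]
      refine ⟨?_, Finset.mem_univ _⟩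
      simp only [I, Finset.mem_filter, Finset.mem_range]
      refine ⟨by omega, ?_⟩
      have := h2 a (c a) haL ha2 g2
      omega
    have := Finset.card_le_mul_card_image_of_maps_to (s := Sm)
      (t := I ×ˢ (Finset.univ : Finset ι)) (f := fun a => (c a, β a)) hmaps (s + 1) (by
        intro p hp
        refine h3 _ p.2 p.1 ?_
        intro a ha
        obtain ⟨ha1, ha2⟩ := Finset.mem_filter.1 ha
        obtain ⟨ha3, ha4⟩ := Finset.mem_filter.1 ha1
        have haL := Finset.mem_range.1 ha3
        obtain ⟨g1, g2⟩ := hc a haL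
        have e1 : c a = p.1 := congrArg Prod.fst ha2
        have e2 : β a = p.2 := congrArg Prod.snd ha2
        exact ⟨haL, e2, e1 ▸ g2, ha4⟩)
    rwa [Finset.card_product, Finset.card_univ] at this
  set U := (St R r w L).ncard
  calc (ν - s) * (s + 1) * L = (ν - s) * ((s + 1) * Big.card) + (ν - s) * (s + 1) * Sm.card := by
        rw [← hBS]; ring
    _ ≤ (ν - s) * U + (ν - s) * (s + 1) * ((s + 1) * (I.card * Fintype.card ι)) :=
        Nat.add_le_add (Nat.mul_le_mul_left _ hBig) (Nat.mul_le_mul_left _ hSm)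
    _ = (ν - s) * U + Fintype.card ι * (s + 1) * (s + 1) * ((ν - s) * I.card) := by ring
    _ ≤ (ν - s) * U + Fintype.card ι * (s + 1) * (s + 1) * U :=
        Nat.add_le_add_left (Nat.mul_le_mul_left _ hI) _

end Pool.Agent.Run7.h799.ND
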