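import Pool.Agent.Run7.h970.ND.Stm

/-! Piece NW of the project of helper970 (nine dragon tree): the arboricity theorem of Nash-Williams
in the form of configurations. -/

set_option autoImplicit false

namespace Pool.Agent.Run7.h799.ND

open SimpleGraph Pool.Agent.Run7.h970.ND

theorem reach_sup {V : Type} (G : SimpleGraph V) (a b u v : V) :
    (G ⊔ edge a b).Reachable u v ↔ G.Reachable u v ∨ (G.Reachable u a ∧ G.Reachable b v) ∨
      (G.Reachable u b ∧ G.Reachable a v) := by
  constructor
  · rintro ⟨p⟩
    induction p with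
    | nil => exact Or.inl (Reachable.refl _)
    | cons h p ih =>
      rename_i x y z
      rw [sup_adj, edge_adj] at h
      rcases h with h | ⟨h1, h2⟩
      · have hxy : G.Reachable x y := h.reachable
        rcases ih with h | ⟨h1, h2⟩ | ⟨h1, h2⟩
        · exact Or.inl (hxy.trans h)
        · exact Or.inr (Or.inl ⟨hxy.trans h1, h2⟩)
        · exact Or.inr (Or.inr ⟨hxy.trans h1, h2⟩)
      · rcases h1 with ⟨rfl, rfl⟩ | ⟨rfl, rfl⟩
        · rcases ih with h | ⟨h1, h2⟩ | ⟨h1, h2⟩
          · exact Or.inr (Or.inl ⟨Reachable.refl _, h⟩)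
          · exact Or.inr (Or.inl ⟨Reachable.refl _, h2⟩)
          · exact Or.inl h2
        · rcases ih with h | ⟨h1, h2⟩ | ⟨h1, h2⟩
          · exact Or.inr (Or.inr ⟨Reachable.refl _, h⟩)
          · exact Or.inl h2
          · exact Or.inr (Or.inr ⟨Reachable.refl _, h2⟩)
  · have hle : G ≤ G ⊔ edge a b := le_sup_left
    have hab : (G ⊔ edge a b).Reachable a b := by
      by_cases h : a = b
      · subst h; exact Reachable.refl _
      · apply Adj.reachable
        rw [sup_adj, edge_adj]
        exact Or.inr ⟨Or.inl ⟨rfl, rfl⟩, h⟩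
    rintro (h | ⟨h1, h2⟩ | ⟨h1, h2⟩)
    · exact h.mono hle
    · exact (h1.mono hle).trans (hab.trans (h2.mono hle))
    · exact (h1.mono hle).trans (hab.symm.trans (h2.mono hle))

/-- number of components after adding an edge between different components -/
theorem card_comp {V : Type} [Finite V] (G : SimpleGraph V) (a b : V)
    (h : ¬ G.Reachable a b) :
    Nat.card (G ⊔ edge a b).ConnectedComponent + 1 = Nat.card G.ConnectedComponent := by
  classical
  have := Fintype.ofFinite V
  have hle : G ≤ G ⊔ edge a b := le_sup_left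
  let f : {C : G.ConnectedComponent // C ≠ G.connectedComponentMk b} →
      (G ⊔ edge a b).ConnectedComponent := fun C => C.1.map (Hom.ofLE hle)
  have hab : (G ⊔ edge a b).Reachable a b := (reach_sup G a b a b).2
    (Or.inr (Or.inl ⟨Reachable.refl _, Reachable.refl _⟩))
  have hf : Function.Bijective f := by
    constructor
    · rintro ⟨C, hC⟩ ⟨D, hD⟩ hCD
      induction C using ConnectedComponent.ind with | _ u => ?_
      induction D using ConnectedComponent.ind with | _ v => ?_
      simp only [f, ConnectedComponent.map_mk, Hom.coe_ofLE, id_eq, ConnectedComponent.eq] at hCD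
      rw [Ne, ConnectedComponent.eq] at hC hD
      rw [Subtype.mk.injEq, ConnectedComponent.eq]
      rcases (reach_sup G a b u v).1 hCD with h1 | ⟨h1, h2⟩ | ⟨h1, h2⟩
      · exact h1
      · exact absurd h2.symm hD
      · exact absurd h1 hC
    · intro D
      induction D using ConnectedComponent.ind with | _ v => ?_
      by_cases hv : G.Reachable v b
      · refine ⟨⟨G.connectedComponentMk a, ?_⟩, ?_⟩
        · rw [Ne, ConnectedComponent.eq]; exact h
        · simp only [f, ConnectedComponent.map_mk, Hom.coe_ofLE, id_eq, ConnectedComponent.eq]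
          exact hab.trans (hv.symm.mono hle)
      · refine ⟨⟨G.connectedComponentMk v, ?_⟩, ?_⟩
        · rw [Ne, ConnectedComponent.eq]; exact hv
        · simp [f]
  rw [← Nat.card_congr (Equiv.ofBijective f hf)]
  rw [Nat.card_eq_fintype_card, Nat.card_eq_fintype_card, Fintype.card_subtype_compl]
  simp only [Fintype.card_unique]
  have : 0 < Fintype.card G.ConnectedComponent :=
    Fintype.card_pos_iff.2 ⟨G.connectedComponentMk b⟩
  omega

theorem del_sup {V : Type} (R : SimpleGraph V) (p q : V) (h : R.Adj p q) :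
    R.deleteEdges {s(p, q)} ⊔ edge p q = R := by
  ext a b
  rw [sup_adj, deleteEdges_adj, edge_adj, Set.mem_singleton_iff]
  constructor
  · rintro (h1 | ⟨⟨rfl, rfl⟩ | ⟨rfl, rfl⟩, h2⟩)
    · exact h1.1
    · exact h
    · exact h.symm
  · intro h1
    by_cases he : s(a, b) = s(p, q)
    · right
      refine ⟨?_, h1.ne⟩
      rw [Sym2.eq_iff] at he
      rcases he with ⟨rfl, rfl⟩ | ⟨rfl, rfl⟩
      · left; exact ⟨rfl, rfl⟩
      · right; exact ⟨rfl, rfl⟩
    · left
      exact ⟨h1, he⟩

theorem trail_dart {V : Type} {R : SimpleGraph V} {u v : V} (P : R.Walk u v) (hP : P.IsTrail)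
    (d : R.Dart) (hd : d ∈ P.darts) :
    (R.deleteEdges {d.edge}).Reachable u d.fst ∧ (R.deleteEdges {d.edge}).Reachable d.snd v := by
  induction P with
  | nil => simp at hd
  | cons h P ih =>
    rename_i a b c
    rw [Walk.isTrail_cons] at hP
    rw [Walk.darts_cons, List.mem_cons] at hd
    rcases hd with rfl | hd
    · exact ⟨Reachable.refl _, ⟨P.toDeleteEdge _ hP.2⟩⟩
    · obtain ⟨h1, h2⟩ := ih hP.1 hd
      refine ⟨?_, h2⟩
      have h3 : (R.deleteEdges {d.edge}).Adj a b := by
        rw [deleteEdges_adj]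
        refine ⟨h, ?_⟩
        intro he
        rw [Set.mem_singleton_iff] at he
        apply hP.2
        rw [he]
        exact List.mem_map_of_mem hd
      exact h3.reachable.trans h1

theorem exch_tree {V : Type} {T : SimpleGraph V} (hT : T.IsTree) {r x y p q : V}
    (hxy : T.Adj x y) (hy : (T.deleteEdges {s(x, y)}).Reachable y r)
    (hp : (T.deleteEdges {s(x, y)}).Reachable r p)
    (hq : ¬ (T.deleteEdges {s(x, y)}).Reachable r q) :
    (T.deleteEdges {s(x, y)} ⊔ edge p q).IsTree := by
  set H := T.deleteEdges {s(x, y)} with hH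
  have hTH : H ⊔ edge x y = T := del_sup T x y hxy
  have hpq : ¬ H.Reachable p q := fun h => hq (hp.trans h)
  have hac : H.IsAcyclic := hT.isAcyclic.anti (deleteEdges_le _)
  have hside : ∀ v, H.Reachable v x ∨ H.Reachable v y := by
    intro v
    have h1 : T.Reachable v x := hT.connected.preconnected v x
    rw [← hTH, reach_sup] at h1
    rcases h1 with h1 | h1 | h1
    · exact Or.inl h1
    · exact Or.inl h1.1
    · exact Or.inr h1.1
  have hle : H ≤ H ⊔ edge p q := le_sup_left
  have hpq' : (H ⊔ edge p q).Reachable p q := (reach_sup H p q p q).2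
    (Or.inr (Or.inl ⟨Reachable.refl _, Reachable.refl _⟩))
  have hqx : H.Reachable q x := by
    rcases hside q with h | h
    · exact h
    · exact absurd (h.trans hy).symm hq
  have hr : ∀ v, (H ⊔ edge p q).Reachable v r := by
    intro v
    rcases hside v with h | h
    · exact ((h.trans hqx.symm).mono hle).trans (hpq'.symm.trans (hp.symm.mono hle))
    · exact (h.trans hy).mono hle
  have hne : Nonempty V := ⟨r⟩
  refine ⟨⟨fun u v => (hr u).trans (hr v).symm⟩, ?_⟩
  exact (isAcyclic_add_edge_iff_of_not_reachable p q hpq).2 hac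

theorem exists_par {V : Type} {T : SimpleGraph V} (hT : T.IsTree) {r x : V} (hx : x ≠ r) :
    ∃ y, Par T r x y := by
  obtain ⟨P, hP⟩ := hT.connected.exists_isPath x r
  cases P with
  | nil => exact absurd rfl hx
  | cons h P =>
    rename_i y
    refine ⟨y, h, ?_⟩
    have h1 := hP.isTrail
    rw [Walk.isTrail_cons] at h1
    exact ⟨P.toDeleteEdge _ h1.2⟩

theorem par_not {V : Type} {T : SimpleGraph V} (hT : T.IsTree) {r x y : V} (h : Par T r x y) :
    ¬ (T.deleteEdges {s(x, y)}).Reachable r x := by
  intro h1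
  have h2 : T.IsBridge s(x, y) := isAcyclic_iff_forall_adj_isBridge.1 hT.isAcyclic h.1
  rw [isBridge_iff] at h2
  exact h2 (h.2.trans h1).symm

theorem par_asymm {V : Type} {T : SimpleGraph V} (hT : T.IsTree) {r x y : V} (h : Par T r x y)
    (h' : Par T r y x) : False := by
  refine par_not hT h ?_
  have := h'.2
  rw [Sym2.eq_swap] at this
  exact this.symm

/-- `r` is on a cycle of `R` -/
def Cyc {V : Type} (R : SimpleGraph V) (r : V) : Prop :=
  ∃ r', R.Adj r r' ∧ (R.deleteEdges {s(r, r')}).Reachable r r'

theorem exists_cyc {V : Type} {R : SimpleGraph V} (h : ¬ R.IsAcyclic) : ∃ r, Cyc R r := by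
  rw [isAcyclic_iff_forall_adj_isBridge] at h
  push Not at h
  obtain ⟨r, r', h1, h2⟩ := h
  rw [isBridge_iff] at h2
  refine ⟨r, r', h1, ?_⟩
  by_contra h3
  exact h2 h3

/-- cover -/
structure Cov {V ι : Type} (G : SimpleGraph V) (T : ι → SimpleGraph V) (R : SimpleGraph V) :
    Prop where
  tree : ∀ b, (T b).IsTree
  le : R ≤ G
  cov : ∀ x y, G.Adj x y → R.Adj x y ∨ ∃ b, (T b).Adj x y

theorem exists_closer {V : Type} {R : SimpleGraph V} {r v : V} (h : R.Reachable v r)
    (hv : v ≠ r) : ∃ w, R.Adj v w ∧ R.dist w r < R.dist v r := by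
  obtain ⟨P, hP⟩ := h.exists_walk_length_eq_dist
  cases P with
  | nil => exact absurd rfl hv
  | cons h P =>
    rename_i w
    refine ⟨w, h, ?_⟩
    have h1 := dist_le P
    rw [Walk.length_cons] at hP
    omega

open scoped Classical in
/-- a component with a cycle has as many edges as vertices -/
theorem cyc_count {V : Type} [Fintype V] (R : SimpleGraph V) (r : V) (hr : Cyc R r) :
    {x | R.Reachable r x}.ncard ≤
      {e | e ∈ R.edgeSet ∧ ∀ v ∈ e, v ∈ {x | R.Reachable r x}}.ncard := by
  obtain ⟨r', h1, h2⟩ := hr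
  set R3 := R.deleteEdges {s(r, r')} with hR3
  have hR : R3 ⊔ edge r r' = R := del_sup R r r' h1
  set U : Set V := {x | R.Reachable r x} with hU
  have hreach : ∀ v ∈ U, R3.Reachable v r := by
    intro v hv
    have h3 : R.Reachable r v := hv
    rw [← hR, reach_sup] at h3
    rcases h3 with h3 | h3 | h3
    · exact h3.symm
    · exact h3.2.symm.trans h2.symm
    · exact h3.2.symm
  have hex : ∀ v, ∃ w, v ∈ U → v ≠ r → R3.Adj v w ∧ R3.dist w r < R3.dist v r := by
    intro v
    by_cases h : v ∈ U ∧ v ≠ r
    · obtain ⟨w, hw⟩ := exists_closer (hreach v h.1) h.2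
      exact ⟨w, fun _ _ => hw⟩
    · exact ⟨v, fun h3 h4 => absurd ⟨h3, h4⟩ h⟩
  choose f hf using hex
  have hrU : r ∈ U := Reachable.refl _
  let g : V → Sym2 V := fun v => if v = r then s(r, r') else s(v, f v)
  refine Set.ncard_le_ncard_of_injOn g ?_ ?_
  · intro v hv
    by_cases hvr : v = r
    · simp only [g, if_pos hvr]
      refine ⟨h1, ?_⟩
      intro z hz
      rw [Sym2.mem_iff] at hz
      rcases hz with rfl | rfl
      · exact hrU
      · exact h1.reachable
    · simp only [g, if_neg hvr]
      obtain ⟨h3, h4⟩ := hf v hv hvr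
      have h5 : R.Adj v (f v) := by
        rw [hR3, deleteEdges_adj] at h3
        exact h3.1
      refine ⟨h5, ?_⟩
      intro z hz
      rw [Sym2.mem_iff] at hz
      rcases hz with rfl | rfl
      · exact hv
      · exact Reachable.trans hv h5.reachable
  · intro v hv w hw hvw
    by_cases hvr : v = r
    · by_cases hwr : w = r
      · rw [hvr, hwr]
      · exfalso
        simp only [g, if_pos hvr, if_neg hwr] at hvw
        obtain ⟨h3, h4⟩ := hf w hw hwr
        rw [hR3, deleteEdges_adj, ← hvw] at h3
        exact h3.2 rfl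
    · by_cases hwr : w = r
      · exfalso
        simp only [g, if_neg hvr, if_pos hwr] at hvw
        obtain ⟨h3, h4⟩ := hf v hv hvr
        rw [hR3, deleteEdges_adj, hvw] at h3
        exact h3.2 rfl
      · simp only [g, if_neg hvr, if_neg hwr] at hvw
        rw [Sym2.eq_iff] at hvw
        rcases hvw with ⟨h3, _⟩ | ⟨h3, h4⟩
        · exact h3
        · exfalso
          have h5 := (hf v hv hvr).2
          have h6 := (hf w hw hwr).2
          rw [h4] at h5
          rw [← h3] at h6
          omega

open scoped Classical in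
/-- the final count -/
theorem nw_count {V : Type} [Fintype V] {ι : Type} [Fintype ι] (G : SimpleGraph V)
    (T : ι → SimpleGraph V) (R : SimpleGraph V) (r : V) (hC : Cov G T R) (hr : Cyc R r)
    (hgood : ∀ x, R.Reachable r x → ∀ b y, Par (T b) r x y → (G.Adj x y ∧ ¬ R.Adj x y ∧
      ∀ b', b' ≠ b → ¬ (T b').Adj x y) ∧ R.Reachable r y) :
    (Fintype.card ι + 1) * ({x | R.Reachable r x}.ncard - 1) + 1 ≤
      ec G {x | R.Reachable r x} := by
  have hcyc := cyc_count R r hr
  set U : Set V := {x | R.Reachable r x} with hU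
  have hrU : r ∈ U := Reachable.refl _
  have hex : ∀ (b : ι) (x : V), ∃ y, x ≠ r → Par (T b) r x y := by
    intro b x
    by_cases h : x ≠ r
    · obtain ⟨y, hy⟩ := exists_par (hC.tree b) h
      exact ⟨y, fun _ => hy⟩
    · exact ⟨x, fun h' => absurd h' h⟩
  choose par hpar using hex
  let A : Finset (Sym2 V) := ((U.toFinset.erase r) ×ˢ (Finset.univ : Finset ι)).image
    (fun p => s(p.1, par p.2 p.1))
  let B : Finset (Sym2 V) := (Finset.univ.filter fun e => e ∈ R.edgeSet ∧ ∀ v ∈ e, v ∈ U)
  have hA : A.card = (U.ncard - 1) * Fintype.card ι := by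
    rw [Finset.card_image_of_injOn, Finset.card_product, Finset.card_univ,
      Finset.card_erase_of_mem (Set.mem_toFinset.2 hrU), Set.ncard_eq_toFinset_card']
    rintro ⟨x, b⟩ hx ⟨x', b'⟩ hx' hxx
    simp only [Finset.coe_product, Set.mem_prod, Finset.mem_coe, Finset.mem_erase,
      Set.mem_toFinset, Finset.mem_univ, and_true] at hx hx'
    simp only at hxx
    have p1 := hpar b x hx.1
    have p2 := hpar b' x' hx'.1
    have g1 := (hgood x hx.2 b _ p1).1
    have hbb : b' = b := by
      by_contra hne
      refine g1.2.2 b' hne ?_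
      have h3 := p2.1
      rw [← mem_edgeSet, ← hxx] at h3
      exact h3
    subst hbb
    rw [Sym2.eq_iff] at hxx
    rcases hxx with ⟨h3, _⟩ | ⟨h3, h4⟩
    · rw [h3]
    · exfalso
      rw [h4] at p1
      rw [← h3] at p2
      exact par_asymm (hC.tree b') p1 p2
  have hB : U.ncard ≤ B.card := by
    refine hcyc.trans (le_of_eq ?_)
    rw [← Set.ncard_coe_finset]
    congr 1
    ext e
    simp [B]
  have hAB : Disjoint A B := by
    rw [Finset.disjoint_left]
    intro e he he'
    obtain ⟨⟨x, b⟩, hx, rfl⟩ := Finset.mem_image.1 he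
    simp only [Finset.mem_product, Finset.mem_erase, Set.mem_toFinset, Finset.mem_univ,
      and_true] at hx
    have h3 := (hgood x hx.2 b _ (hpar b x hx.1)).1
    exact h3.2.1 (Finset.mem_filter.1 he').2.1
  have hsub : (A ∪ B).card ≤ ec G U := by
    unfold ec
    rw [← Set.ncard_coe_finset]
    refine Set.ncard_le_ncard ?_ (Set.toFinite _)
    intro e he
    rw [Finset.mem_coe, Finset.mem_union] at he
    rcases he with he | he
    · obtain ⟨⟨x, b⟩, hx, rfl⟩ := Finset.mem_image.1 he
      simp only [Finset.mem_product, Finset.mem_erase, Set.mem_toFinset, Finset.mem_univ,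
        and_true] at hx
      have h3 := hgood x hx.2 b _ (hpar b x hx.1)
      refine ⟨h3.1.1, ?_⟩
      intro v hv
      simp only [Sym2.mem_iff] at hv
      rcases hv with rfl | rfl
      · exact hx.2
      · exact h3.2
    · have h3 := (Finset.mem_filter.1 he).2
      exact ⟨edgeSet_mono hC.le h3.1, h3.2⟩
  rw [Finset.card_union_of_disjoint hAB, hA] at hsub
  have hpos : 1 ≤ U.ncard := (Set.ncard_pos (Set.toFinite _)).2 ⟨r, hrU⟩
  obtain ⟨m, hm⟩ : ∃ m, U.ncard = m + 1 := ⟨U.ncard - 1, by omega⟩
  rw [hm] at hsub hB ⊢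
  simp only [Nat.add_sub_cancel] at hsub ⊢
  calc (Fintype.card ι + 1) * m + 1 = m * Fintype.card ι + (m + 1) := by ring
    _ ≤ m * Fintype.card ι + B.card := Nat.add_le_add_left hB _
    _ ≤ _ := hsub

theorem card_comp_le {V : Type} [Fintype V] (R : SimpleGraph V) :
    Nat.card R.ConnectedComponent ≤ Fintype.card V := by
  rw [← Nat.card_eq_fintype_card]
  exact Nat.card_le_card_of_surjective R.connectedComponentMk Quot.mk_surjective

theorem cs_le {V : Type} [Fintype V] (R : SimpleGraph V) (v : V) : cs R v ≤ Fintype.card V := by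
  unfold cs
  rw [← Nat.card_eq_fintype_card, ← Set.ncard_univ]
  exact Set.ncard_le_ncard (Set.subset_univ _) (Set.toFinite _)

/-- the measure -/
noncomputable def mu {V : Type} [Fintype V] (R : SimpleGraph V) (r : V) : ℕ :=
  R.edgeSet.ncard * ((Fintype.card V + 1) * (Fintype.card V + 1)) +
    Nat.card R.ConnectedComponent * (Fintype.card V + 1) + cs R r

theorem mu_lt1 {V : Type} [Fintype V] (R R' : SimpleGraph V) (r r' : V)
    (h : R'.edgeSet.ncard < R.edgeSet.ncard) : mu R' r' < mu R r := by
  unfold mu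
  have h1 := card_comp_le R'
  have h2 := cs_le R' r'
  set N := Fintype.card V
  obtain ⟨k, hk⟩ : ∃ k, R.edgeSet.ncard = R'.edgeSet.ncard + 1 + k :=
    ⟨R.edgeSet.ncard - R'.edgeSet.ncard - 1, by omega⟩
  rw [hk]
  have h3 : Nat.card R'.ConnectedComponent * (N + 1) ≤ N * (N + 1) := Nat.mul_le_mul_right _ h1
  nlinarith [Nat.zero_le (k * ((N + 1) * (N + 1))), Nat.zero_le (cs R r),
    Nat.zero_le (Nat.card R.ConnectedComponent * (N + 1))]

theorem mu_lt2 {V : Type} [Fintype V] (R R' : SimpleGraph V) (r r' : V)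
    (h : R'.edgeSet.ncard ≤ R.edgeSet.ncard)
    (h' : Nat.card R'.ConnectedComponent < Nat.card R.ConnectedComponent) :
    mu R' r' < mu R r := by
  unfold mu
  have h2 := cs_le R' r'
  set N := Fintype.card V
  have h3 : R'.edgeSet.ncard * ((N + 1) * (N + 1)) ≤ R.edgeSet.ncard * ((N + 1) * (N + 1)) :=
    Nat.mul_le_mul_right _ h
  have h4 : (Nat.card R'.ConnectedComponent + 1) * (N + 1) ≤
    Nat.card R.ConnectedComponent * (N + 1) := Nat.mul_le_mul_right _ h'
  nlinarith [Nat.zero_le (cs R r)]

theorem mu_lt3 {V : Type} [Fintype V] (R R' : SimpleGraph V) (r r' : V)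
    (h : R'.edgeSet.ncard ≤ R.edgeSet.ncard)
    (h' : Nat.card R'.ConnectedComponent ≤ Nat.card R.ConnectedComponent)
    (h'' : cs R' r' < cs R r) :
    mu R' r' < mu R r := by
  unfold mu
  set N := Fintype.card V
  have h3 : R'.edgeSet.ncard * ((N + 1) * (N + 1)) ≤ R.edgeSet.ncard * ((N + 1) * (N + 1)) :=
    Nat.mul_le_mul_right _ h
  have h4 : (Nat.card R'.ConnectedComponent) * (N + 1) ≤
    Nat.card R.ConnectedComponent * (N + 1) := Nat.mul_le_mul_right _ h'
  omega

open scoped Classical in
/-- the step of the descent -/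
theorem nw_step {V : Type} [Fintype V] {ι : Type} (G : SimpleGraph V)
    (hall : ∀ (T : ι → SimpleGraph V) (R : SimpleGraph V), Cov G T R → ¬ R.IsAcyclic)
    (T : ι → SimpleGraph V) (R : SimpleGraph V) (r : V) (hC : Cov G T R) (hr : Cyc R r)
    (x : V) (hx : R.Reachable r x) (b : ι) (y : V) (hpar : Par (T b) r x y)
    (hbad : ¬ ((G.Adj x y ∧ ¬ R.Adj x y ∧ ∀ b', b' ≠ b → ¬ (T b').Adj x y) ∧
      R.Reachable r y)) :
    ∃ (T' : ι → SimpleGraph V) (R' : SimpleGraph V) (r' : V), Cov G T' R' ∧ Cyc R' r' ∧
      mu R' r' < mu R r := by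
  -- the crossing edge
  set H := (T b).deleteEdges {s(x, y)} with hH
  have hrx : ¬ H.Reachable r x := par_not (hC.tree b) hpar
  obtain ⟨P, hP⟩ := hx.exists_isPath
  obtain ⟨d, hd, hd1, hd2⟩ := P.exists_boundary_dart {v | H.Reachable r v}
    (Reachable.refl _) hrx
  have htr := trail_dart P hP.isTrail d hd
  obtain ⟨⟨p, q⟩, hpq⟩ := d
  simp only [Set.mem_ofPred_eq] at hd1 hd2
  simp only [Dart.edge_mk] at htr
  set R1 := R.deleteEdges {s(p, q)} with hR1
  obtain ⟨hrp, hqx⟩ := htr
  have hRR : R1 ⊔ edge p q = R := del_sup R p q hpq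
  have hR1le : R1 ≤ R := deleteEdges_le _
  let T' : ι → SimpleGraph V := Function.update T b (H ⊔ edge p q)
  have hT'b : T' b = H ⊔ edge p q := Function.update_self _ _ _
  have hT'c : ∀ c, c ≠ b → T' c = T c := fun c hc => Function.update_of_ne hc _ _
  have htree : ∀ c, (T' c).IsTree := by
    intro c
    by_cases hc : c = b
    · rw [hc, hT'b]
      exact exch_tree (hC.tree b) hpar.1 hpar.2 hd1 hd2
    · rw [hT'c c hc]
      exact hC.tree c
  have hne : R1.edgeSet.ncard + 1 = R.edgeSet.ncard := by
    have h1 : R1.edgeSet = R.edgeSet \ {s(p, q)} := edgeSet_deleteEdges _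
    rw [h1]
    exact Set.ncard_sdiff_singleton_add_one hpq (Set.toFinite _)
  have hcov : ∀ u v, G.Adj u v → R1.Adj u v ∨ (∃ c, (T' c).Adj u v) ∨
      (s(u, v) = s(x, y) ∧ ¬ R.Adj x y ∧ ∀ c, c ≠ b → ¬ (T c).Adj x y) := by
    intro u v huv
    by_cases h1 : s(u, v) = s(p, q)
    · right; left
      refine ⟨b, ?_⟩
      rw [hT'b, ← mem_edgeSet, h1, mem_edgeSet]
      exact Or.inr (by rw [edge_adj]; exact ⟨Or.inl ⟨rfl, rfl⟩, hpq.ne⟩)
    · by_cases h2 : R.Adj u v
      · left
        rw [hR1, deleteEdges_adj]
        exact ⟨h2, h1⟩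
      · right
        by_cases h3 : ∃ c, (T' c).Adj u v
        · exact Or.inl h3
        · right
          push Not at h3
          have h4 : ∀ c, c ≠ b → ¬ (T c).Adj u v := fun c hc h5 => h3 c (by rw [hT'c c hc]; exact h5)
          have h5 : (T b).Adj u v := by
            rcases hC.cov u v huv with h6 | ⟨c, h6⟩
            · exact absurd h6 h2
            · by_cases hc : c = b
              · rw [← hc]; exact h6
              · exact absurd h6 (h4 c hc)
          have h6 : s(u, v) = s(x, y) := by
            by_contra h7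
            refine h3 b ?_
            rw [hT'b]
            exact Or.inl (by rw [hH, deleteEdges_adj]; exact ⟨h5, h7⟩)
          refine ⟨h6, ?_, ?_⟩
          · intro h7
            apply h2
            rw [← mem_edgeSet, h6]
            exact h7
          · intro c hc h7
            apply h4 c hc
            rw [← mem_edgeSet, h6]
            exact h7
  by_cases hgood : G.Adj x y ∧ ¬ R.Adj x y ∧ ∀ b', b' ≠ b → ¬ (T b').Adj x y
  · -- the parent is outside of the component
    have hyr : ¬ R.Reachable r y := fun h => hbad ⟨hgood, h⟩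
    set R2 := R1 ⊔ edge x y with hR2
    have hC2 : Cov G T' R2 := by
      refine ⟨htree, ?_, ?_⟩
      · refine sup_le (hR1le.trans hC.le) ?_
        intro u v huv
        rw [edge_adj] at huv
        rcases huv.1 with ⟨rfl, rfl⟩ | ⟨rfl, rfl⟩
        · exact hgood.1
        · exact hgood.1.symm
      · intro u v huv
        rcases hcov u v huv with h1 | h1 | h1
        · exact Or.inl (Or.inl h1)
        · exact Or.inr h1
        · left; right
          rw [← mem_edgeSet, h1.1, mem_edgeSet, edge_adj]
          exact ⟨Or.inl ⟨rfl, rfl⟩, hgood.1.ne⟩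
    have he2 : R2.edgeSet.ncard ≤ R.edgeSet.ncard := by
      have h1 : R2.edgeSet ⊆ R1.edgeSet ∪ {s(x, y)} := by
        intro e
        induction e with | _ u v => ?_
        intro he
        rw [mem_edgeSet, hR2, sup_adj, edge_adj] at he
        rcases he with he | ⟨⟨rfl, rfl⟩ | ⟨rfl, rfl⟩, _⟩
        · exact Or.inl he
        · exact Or.inr rfl
        · exact Or.inr Sym2.eq_swap
      have h2 := Set.ncard_le_ncard h1 (Set.toFinite _)
      have h3 := Set.ncard_union_le R1.edgeSet {s(x, y)}
      rw [Set.ncard_singleton] at h3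
      omega
    have hxy1 : ¬ R1.Reachable x y := fun h => hyr (hx.trans (h.mono hR1le))
    have hc2 := card_comp R1 x y hxy1
    rw [← hR2] at hc2
    by_cases hbr : R1.Reachable p q
    · -- not a bridge
      have hsame : R.Reachable = R1.Reachable := by
        funext u v
        apply propext
        rw [← hRR, reach_sup]
        constructor
        · rintro (h | h | h)
          · exact h
          · exact h.1.trans (hbr.trans h.2)
          · exact h.1.trans (hbr.symm.trans h.2)
        · exact Or.inl
      have hcc : Nat.card R.ConnectedComponent = Nat.card R1.ConnectedComponent := by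
        unfold ConnectedComponent
        rw [hsame]
      obtain ⟨r', hr'⟩ := exists_cyc (hall T' R2 hC2)
      exact ⟨T', R2, r', hC2, hr', mu_lt2 R R2 r r' he2 (by omega)⟩
    · -- a bridge
      have hc1 := card_comp R1 p q hbr
      rw [hRR] at hc1
      have hrx1 : ¬ R1.Reachable r x := fun h => hbr (hrp.symm.trans (h.trans hqx.symm))
      have hry1 : ¬ R1.Reachable r y := fun h => hyr (h.mono hR1le)
      have hr2 : ∀ v, R2.Reachable r v → R1.Reachable r v := by
        intro v hv
        rw [hR2, reach_sup] at hv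
        rcases hv with h | h | h
        · exact h
        · exact absurd h.1 hrx1
        · exact absurd h.1 hry1
      have hcs : cs R2 r < cs R r := by
        refine Set.ncard_lt_ncard ?_ (Set.toFinite _)
        rw [Set.ssubset_iff_of_subset]
        · refine ⟨x, hx, ?_⟩
          intro h
          exact hrx1 (hr2 x h)
        · intro v hv
          exact (hr2 v hv).mono hR1le
      have hcyc : Cyc R2 r := by
        obtain ⟨r', h1, h2⟩ := hr
        have hne' : s(r, r') ≠ s(p, q) := by
          intro he
          rw [he] at h2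
          rw [Sym2.eq_iff] at he
          rcases he with ⟨rfl, rfl⟩ | ⟨rfl, rfl⟩
          · exact hbr h2
          · exact hbr h2.symm
        have h3 : R1.Adj r r' := by
          rw [hR1, deleteEdges_adj]
          exact ⟨h1, hne'⟩
        refine ⟨r', Or.inl h3, ?_⟩
        have h4 : R1.deleteEdges {s(r, r')} ⊔ edge p q = R.deleteEdges {s(r, r')} := by
          conv_rhs => rw [← hRR]
          ext u v
          simp only [sup_adj, deleteEdges_adj, edge_adj, Set.mem_singleton_iff]
          constructor
          · rintro (h | h)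
            · exact ⟨Or.inl h.1, h.2⟩
            · refine ⟨Or.inr h, ?_⟩
              intro h5
              apply hne'
              rw [← h5]
              rcases h.1 with ⟨rfl, rfl⟩ | ⟨rfl, rfl⟩
              · rfl
              · exact Sym2.eq_swap
          · rintro ⟨h | h, h5⟩
            · exact Or.inl ⟨h, h5⟩
            · exact Or.inr h
        rw [← h4, reach_sup] at h2
        have h5 : R1.deleteEdges {s(r, r')} ≤ R1 := deleteEdges_le _
        rcases h2 with h | h | h
        · exact h.mono (deleteEdges_mono le_sup_left)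
        · exact absurd ((h.1.mono h5).symm.trans (h3.reachable.trans (h.2.mono h5).symm)) hbr
        · exact absurd ((h.2.mono h5).trans (h3.symm.reachable.trans (h.1.mono h5))) hbr
      exact ⟨T', R2, r, hC2, hcyc, mu_lt3 R R2 r r he2 (by omega) hcs⟩
  · -- fewer edges
    have hC1 : Cov G T' R1 := by
      refine ⟨htree, hR1le.trans hC.le, ?_⟩
      intro u v huv
      rcases hcov u v huv with h1 | h1 | h1
      · exact Or.inl h1
      · exact Or.inr h1
      · exfalso
        apply hgood
        refine ⟨?_, h1.2.1, h1.2.2⟩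
        rw [← mem_edgeSet, ← h1.1]
        exact huv
    obtain ⟨r', hr'⟩ := exists_cyc (hall T' R1 hC1)
    exact ⟨T', R1, r', hC1, hr', mu_lt1 R R1 r r' (by omega)⟩

theorem t_NW : S_NW := by
  intro V _ _ ι _ G hG
  by_contra hno
  have hall : ∀ (T : ι → SimpleGraph V) (R : SimpleGraph V), Cov G T R → ¬ R.IsAcyclic := by
    intro T R hC hac
    exact hno ⟨T, R, hC.tree, hac, hC.le, hC.cov⟩
  have key : ∀ (n : ℕ) (T : ι → SimpleGraph V) (R : SimpleGraph V) (r : V), Cov G T R →
      Cyc R r → mu R r = n → False := by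
    intro n
    induction n using Nat.strong_induction_on with
    | _ n ih =>
      intro T R r hC hr hn
      by_cases hgood : ∀ x, R.Reachable r x → ∀ b y, Par (T b) r x y →
          (G.Adj x y ∧ ¬ R.Adj x y ∧ ∀ b', b' ≠ b → ¬ (T b').Adj x y) ∧ R.Reachable r y
      · have h1 := nw_count G T R r hC hr hgood
        have h2 := hG {x | R.Reachable r x} ⟨r, Reachable.refl _⟩
        omega
      · push Not at hgood
        obtain ⟨x, hx, b, y, hpar, hbad⟩ := hgood
        obtain ⟨T', R', r', hC', hr', hlt⟩ := nw_step G hall T R r hC hr x hx b y hpar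
          (fun h => hbad h.1 h.2)
        exact ih _ (hn ▸ hlt) T' R' r' hC' hr' rfl
  obtain ⟨T0, _, hT0⟩ := (connected_top (V := V)).exists_isTree_le
  have hC0 : Cov G (fun _ : ι => T0) G := ⟨fun _ => hT0, le_rfl, fun x y h => Or.inl h⟩
  obtain ⟨r, hr⟩ := exists_cyc (hall _ _ hC0)
  exact key _ _ _ r hC0 hr rfl

end Pool.Agent.Run7.h799.ND
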